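import Pool.Agent.Helper71.PY.Goals

/-!
# PY-STAB: adding a hyperbolic plane
-/

set_option autoImplicit false

namespace Pool.Agent.Helper93.PY

open Pool.Agent.Helper71.PY

variable {R : Type} [CommRing R] {N : Type} [AddCommGroup N] [Module R N]

theorem mem_Pst (P : Submodule R N) (v : N × (R × R)) :
    v ∈ Pst P ↔ v.1 ∈ P ∧ v.2.2 = 0 := by
  unfold Pst
  rw [Submodule.mem_prod, Submodule.mem_prod]
  simp

/-- The inclusion of `P` in `Pst P`. -/
def inc (P : Submodule R N) : P →ₗ[R] Pst P where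
  toFun p := ⟨((p : N), (0, 0)), (mem_Pst P _).2 ⟨p.2, rfl⟩⟩
  map_add' := by
    intro a b
    apply Subtype.ext
    simp
  map_smul' := by
    intro c a
    apply Subtype.ext
    simp

theorem inc_val (P : Submodule R N) (p : P) : ((inc P p : Pst P) : N × (R × R)) = ((p : N), (0, 0)) :=
  rfl

/-- The vector `(0, (1, 0))`. -/
def e1 (P : Submodule R N) : Pst P := ⟨(0, (1, 0)), (mem_Pst P _).2 ⟨P.zero_mem, rfl⟩⟩

theorem decomp (P : Submodule R N) (q : Pst P) :
    q = inc P ⟨q.1.1, ((mem_Pst P _).1 q.2).1⟩ + q.1.2.1 • e1 P := by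
  apply Subtype.ext
  have h2 := ((mem_Pst P _).1 q.2).2
  refine Prod.ext ?_ (Prod.ext ?_ ?_)
  · simp [inc_val, e1]
  · simp [inc_val, e1]
  · simp [inc_val, e1, h2]

theorem lg (B : N →ₗ[R] N →ₗ[R] R) (P : Submodule R N) (h : Lg B P) :
    Lg (os B (hyp R)) (Pst P) := by
  intro v
  constructor
  · intro hv w hw
    rw [mem_Pst] at hv hw
    have := (h v.1).1 hv.1 w.1 hw.1
    simp [this, hv.2, hw.2]
  · intro hv
    rw [mem_Pst]
    constructor
    · rw [h v.1]
      intro w hw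
      have := hv (w, (0, 0)) ((mem_Pst P _).2 ⟨hw, rfl⟩)
      simpa using this
    · have := hv (0, (1, 0)) ((mem_Pst P _).2 ⟨P.zero_mem, rfl⟩)
      simpa using this

theorem comp_inc (B : N →ₗ[R] N →ₗ[R] R) (P : Submodule R N) (v : N × (R × R)) :
    (nu (os B (hyp R)) (Pst P) v).comp (inc P) = nu B P v.1 := by
  ext p
  simp [inc_val]

theorem range_le (B : N →ₗ[R] N →ₗ[R] R) (P : Submodule R N) :
    LinearMap.range (nu (os B (hyp R)) (Pst P)) ≤
      (LinearMap.range (nu B P)).comap (LinearMap.lcomp R R (inc P)) := by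
  rintro _ ⟨v, rfl⟩
  rw [Submodule.mem_comap]
  exact ⟨v.1, (comp_inc B P v).symm⟩

theorem mem_range_of (B : N →ₗ[R] N →ₗ[R] R) (P : Submodule R N) (η : Pst P →ₗ[R] R)
    (h : η.comp (inc P) ∈ LinearMap.range (nu B P)) :
    η ∈ LinearMap.range (nu (os B (hyp R)) (Pst P)) := by
  obtain ⟨n, hn⟩ := h
  refine ⟨(n, (0, η (e1 P))), ?_⟩
  ext q
  have hq := decomp P q
  have h1 : η q = η (inc P ⟨q.1.1, ((mem_Pst P _).1 q.2).1⟩) + q.1.2.1 * η (e1 P) := by
    conv_lhs => rw [hq]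
    rw [map_add, map_smul, smul_eq_mul]
  have h2 : η (inc P ⟨q.1.1, ((mem_Pst P _).1 q.2).1⟩) = B n q.1.1 := by
    have := LinearMap.congr_fun hn ⟨q.1.1, ((mem_Pst P _).1 q.2).1⟩
    rw [LinearMap.comp_apply] at this
    rw [← this]
    rfl
  rw [h1, h2]
  simp [mul_comm]

theorem len (B : N →ₗ[R] N →ₗ[R] R) (P : Submodule R N) :
    Module.length R (Cok (os B (hyp R)) (Pst P)) ≤ Module.length R (Cok B P) := by
  refine Module.length_le_of_injective
    (Submodule.mapQ _ _ (LinearMap.lcomp R R (inc P)) (range_le B P)) ?_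
  rw [injective_iff_map_eq_zero]
  intro a ha
  obtain ⟨η, rfl⟩ := Submodule.Quotient.mk_surjective _ a
  rw [Submodule.mapQ_apply, Submodule.Quotient.mk_eq_zero] at ha
  rw [Submodule.Quotient.mk_eq_zero]
  exact mem_range_of B P η ha

theorem stab : G_STAB := by
  intro R _ N _ _ B P h
  refine ⟨lg B P h, len B P, ?_⟩
  intro z hz hr
  apply hz
  obtain ⟨v, hv⟩ := hr
  refine ⟨v.1, ?_⟩
  rw [← comp_inc B P v, hv]
  ext p
  change z ⟨_, _⟩ + (0 : R) = z p
  rw [add_zero]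
  rfl

end Pool.Agent.Helper93.PY
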